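import Pool.Agent.R267.HaarDual

set_option autoImplicit false

/-!
# MP_f77f75_an: dual isometrically greedy renormings for the Haar system

For every `1 < p < ∞`, real or complex scalars, there is an equivalent norm on `L_p[0,1]` for which
the Haar system of `L_p` is isometrically greedy, and for whose dual norm on `L_{p'}` the Haar
system of `L_{p'}` is isometrically greedy.
-/

open MeasureTheory

namespace Pool.Agent.Results.MP_f77f75_an.DualGreedyHaar

/-- `L_q[0,1]` with Lebesgue measure, over the scalar field `𝕜`. -/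
abbrev LqI (𝕜 : Type) [RCLike 𝕜] (q : ℝ) : Type :=
  Lp 𝕜 (ENNReal.ofReal q) (volume.restrict (Set.Icc (0 : ℝ) 1))

/-- The indices of the Haar functions: `none` stands for the constant function, and `some ⟨n, k⟩`,
`0 ≤ k < 2 ^ n`, for the Haar function of the dyadic interval `[k / 2 ^ n, (k + 1) / 2 ^ n)`. -/
abbrev Idx : Type := Option (Σ n : ℕ, Fin (2 ^ n))

/-- The Haar functions, normalised in `L_q`: the constant function `1` on `[0,1)` and
`2 ^ (n / q) (1_{[k/2^n, (k+1/2)/2^n)} - 1_{[(k+1/2)/2^n, (k+1)/2^n)})`. -/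
noncomputable def haar (q : ℝ) : Idx → ℝ → ℝ
  | none => Set.indicator (Set.Ico 0 1) (fun _ => 1)
  | some ⟨n, k⟩ => fun x => (2 : ℝ) ^ ((n : ℝ) / q) *
      (Set.indicator (Set.Ico ((k : ℝ) / 2 ^ n) (((k : ℝ) + 1 / 2) / 2 ^ n)) (fun _ => (1 : ℝ)) x
        - Set.indicator (Set.Ico (((k : ℝ) + 1 / 2) / 2 ^ n) (((k : ℝ) + 1) / 2 ^ n))
          (fun _ => (1 : ℝ)) x)

lemma haar_eq (q : ℝ) (j : Idx) : haar q j = R221.HG.haarFun q j := by
  rcases j with _ | ⟨n, k⟩ <;> rfl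

lemma haar_memLp (𝕜 : Type) [RCLike 𝕜] (q : ℝ) (j : Idx) :
    MemLp (fun x => ((haar q j x : ℝ) : 𝕜)) (ENNReal.ofReal q)
      (volume.restrict (Set.Icc (0 : ℝ) 1)) := by
  rw [haar_eq]
  exact R221.HG.memLp_haarFun 𝕜 q j

/-- The Haar functions as elements of `L_q[0,1]`. -/
noncomputable def haarVec (𝕜 : Type) [RCLike 𝕜] (q : ℝ) (j : Idx) : LqI 𝕜 q :=
  (haar_memLp 𝕜 q j).toLp _

variable {𝕜 : Type} [RCLike 𝕜]

/-- The pairing `⟨f, g⟩ = ∫ f g` of `L_p` and `L_{p'}`. -/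
noncomputable def pairing {p q : ℝ} (f : LqI 𝕜 p) (g : LqI 𝕜 q) : 𝕜 :=
  ∫ x in Set.Icc (0 : ℝ) 1, f x * g x

/-- The coordinate functionals of the Haar system of `L_q`: the pairing with the Haar system
normalised in `L_{q'}`, `q' = q / (q - 1)`. -/
noncomputable def coord (q : ℝ) (j : Idx) (f : LqI 𝕜 q) : 𝕜 :=
  pairing f (haarVec 𝕜 (q / (q - 1)) j)

/-- The seminorm `N` on `L_q` is equivalent to the usual norm. -/
def IsEquivNorm {q : ℝ} (N : Seminorm 𝕜 (LqI 𝕜 q)) : Prop :=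
  ∃ c C : ℝ, 0 < c ∧ ∀ f : LqI 𝕜 q, c * ‖f‖ ≤ N f ∧ N f ≤ C * ‖f‖

/-- The Haar system of `L_q` is isometrically greedy relative to `N`: for every `f` and every
finite greedy set `A` of `f` the greedy sum over `A` is a best approximation of `f`, measured by
`N`, among all linear combinations of at most `|A|` elements of the Haar system. -/
def IsometricallyGreedy (q : ℝ) (N : LqI 𝕜 q → ℝ) : Prop :=
  ∀ (f : LqI 𝕜 q) (A : Finset Idx), (∀ j ∈ A, ∀ i ∉ A, ‖coord q i f‖ ≤ ‖coord q j f‖) →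
    ∀ (B : Finset Idx) (b : Idx → 𝕜), B.card ≤ A.card →
      N (f - ∑ j ∈ A, coord q j f • haarVec 𝕜 q j) ≤ N (f - ∑ j ∈ B, b j • haarVec 𝕜 q j)

/-- `M` is the dual norm on `L_{p'}` of the norm `N` on `L_p`: `M g` is the least upper bound of
the numbers `|⟨f, g⟩|`, `N f ≤ 1`. -/
def IsDualNorm {p q : ℝ} (N : LqI 𝕜 p → ℝ) (M : LqI 𝕜 q → ℝ) : Prop :=
  ∀ g : LqI 𝕜 q, IsLUB {r : ℝ | ∃ f : LqI 𝕜 p, N f ≤ 1 ∧ r = ‖pairing f g‖} (M g)

section proof

open R221.HG Pool.Agent.H66R3.PG Filter Topology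
open scoped ENNReal NNReal

lemma haarVec_eq (q : ℝ) (j : Idx) : haarVec 𝕜 q j = (hv 𝕜 q j : Lp 𝕜 (ENNReal.ofReal q) mu) := by
  unfold haarVec hv
  congr 1

lemma coord_eq (q : ℝ) (j : Idx) (f : LqI 𝕜 q) : coord q j f = coef q j f := by
  refine Eq.trans ?_ (R267.HD.coef_pr q j f).symm
  unfold coord
  rw [haarVec_eq]
  rfl

end proof

/-- For every `1 < p < ∞`, real or complex scalars, there is a norm `N` on `L_p[0,1]` equivalent to
the usual norm such that the Haar system of `L_p` is isometrically greedy relative to `N` and the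
Haar system of `L_{p'}` is isometrically greedy relative to the dual norm of `N` on `L_{p'}`. -/
theorem result (𝕜 : Type) [RCLike 𝕜] (p : ℝ) (hp : 1 < p) :
    ∃ N : Seminorm 𝕜 (LqI 𝕜 p), IsEquivNorm N ∧ IsometricallyGreedy p N ∧
      ∃ M : LqI 𝕜 (p / (p - 1)) → ℝ, IsDualNorm N M ∧ IsometricallyGreedy (p / (p - 1)) M := by
  have : Fact (1 ≤ ENNReal.ofReal p) := ⟨ENNReal.one_le_ofReal.2 hp.le⟩
  obtain ⟨N, h1, h2, M, h3, h4⟩ := R267.HD.main (𝕜 := 𝕜) hp
  refine ⟨N, h1, ?_, M, h3, ?_⟩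
  · intro f A hA B b hcard
    have h7 := h2 f A (fun j hj i hi => by rw [← coord_eq, ← coord_eq]; exact hA j hj i hi) B b
      hcard
    simp only [haarVec_eq, coord_eq]
    exact h7
  · intro f A hA B b hcard
    have h7 := h4 f A (fun j hj i hi => by rw [← coord_eq, ← coord_eq]; exact hA j hj i hi) B b
      hcard
    simp only [haarVec_eq, coord_eq]
    exact h7

end Pool.Agent.Results.MP_f77f75_an.DualGreedyHaar
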